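import Pool.Agent.Lib.MP_5ee345_lc.Fin

/-!
`MP_5ee345_lc`: elimination of the bottom fan-in of formulas in `Γ_{t,d}`, `t ≥ 2`.
-/

namespace Pool.Agent.Results.MP_5ee345_lc.BottomFanin

open Pool.Agent.SH5ee

/-- For all `t ≥ 2`, `d ≥ 1`, `ℓ ≥ 1` there is `g` such that for every formula `φ` in `Γ_{t,d}` with variables
`x_1, ..., x_n` there are `k ≤ n / ℓ + 1` and a formula `φ'` in `Γ_{t,1}` with variables
`x_1, ..., x_n, y_1, ..., y_k` and size at most `g 2 ^ (n / ℓ) |φ| ^ g`, and at most `g 2 ^ (n / ℓ) |φ|` if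
`|φ| ^ g ≤ 2 ^ n`, such that for all `x`: `φ(x)` is true if and only if `φ'(x, y)` is true for some `y`. -/
theorem result (t d ℓ : ℕ) (ht : 2 ≤ t) (hd : 1 ≤ d) (hℓ : 1 ≤ ℓ) :
    ∃ g : ℕ, ∀ (n : ℕ) (φ : Fm (Fin n × Bool) t), Fm.Wf d t φ →
      ∃ k : ℕ, k ≤ n / ℓ + 1 ∧ ∃ φ' : Fm ((Fin n ⊕ Fin k) × Bool) t, Fm.Wf 1 t φ' ∧
        (Fm.size t φ' : ℝ) ≤ g * 2 ^ ((n : ℝ) / ℓ) * (Fm.size t φ : ℝ) ^ g ∧
        (Fm.size t φ ^ g ≤ 2 ^ n → (Fm.size t φ' : ℝ) ≤ g * 2 ^ ((n : ℝ) / ℓ) * Fm.size t φ) ∧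
        ∀ x : Fin n → Bool, Fm.Holds (litVal x) t true φ ↔
          ∃ y : Fin k → Bool, Fm.Holds (litVal (Sum.elim x y)) t true φ' :=
  main_thm t d ℓ ht hd hℓ

end Pool.Agent.Results.MP_5ee345_lc.BottomFanin
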